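import Pool.Agent.Lib.MP_f9bcb0_lc.Final

set_option autoImplicit false

namespace Pool.Agent.Results.MP_f9bcb0_lc.RothbergerNotOmega

open Pool.Agent.Lib.MP_f9bcb0_lc

universe u

/-- **There is (in ZFC) a zero-dimensional Tychonoff space which is Rothberger but not
ω-Rothberger.** -/
theorem result : ∃ (X : Type u) (_ : TopologicalSpace X),
    T35Space X ∧ TopologicalSpace.IsTopologicalBasis {s : Set X | IsClopen s} ∧
    Rothberger X ∧ ¬ OmegaRothberger X :=
  main_result

end Pool.Agent.Results.MP_f9bcb0_lc.RothbergerNotOmega
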